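import Mathlib

set_option autoImplicit false
open Filter Topology

namespace Pool.Agent.MP_a6b860_an

variable {A : Type*} [CStarAlgebra A]

lemma two_pow_le_factorial (n : ℕ) : 2 ^ (n + 1) ≤ (n + 2).factorial := by
  induction n with
  | zero => simp [Nat.factorial]
  | succ n ih =>
    have : (n + 1 + 2).factorial = (n + 3) * (n + 2).factorial := by
      rw [show n + 1 + 2 = (n + 2) + 1 by ring, Nat.factorial_succ]
    rw [this, pow_succ]
    nlinarith [Nat.factorial_pos (n+2)]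

/-- second order remainder of the exponential in a Banach algebra -/
lemma norm_exp_sub_one_sub_le (B : A) (hB : ‖B‖ ≤ 1) :
    ‖NormedSpace.exp B - 1 - B‖ ≤ ‖B‖ ^ 2 := by
  have hs : Summable (fun n : ℕ => ((n.factorial : ℂ)⁻¹) • B ^ n) :=
    NormedSpace.expSeries_summable' (𝕂 := ℂ) B
  have he : NormedSpace.exp B = ∑' n : ℕ, ((n.factorial : ℂ)⁻¹) • B ^ n := by
    rw [NormedSpace.exp_eq_tsum (𝕂 := ℂ)]
  have h2 : NormedSpace.exp B - 1 - B = ∑' n : ℕ, (((n + 2).factorial : ℂ)⁻¹) • B ^ (n + 2) := by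
    rw [he, ← hs.sum_add_tsum_nat_add 2]
    simp only [Finset.sum_range_succ, Finset.sum_range_zero, Nat.factorial, pow_zero, pow_one]
    simp only [Nat.cast_one, inv_one, one_smul, zero_add, mul_one]
    abel
  have hnorm : ∀ n : ℕ, ‖(((n + 2).factorial : ℂ)⁻¹) • B ^ (n + 2)‖ ≤
      ‖B‖ ^ 2 * (1 / 2 : ℝ) ^ (n + 1) := by
    intro n
    rw [norm_smul, norm_inv]
    have h1 : ‖((n + 2).factorial : ℂ)‖ = ((n + 2).factorial : ℝ) := by
      simp
    rw [h1]
    have h3 : ‖B ^ (n + 2)‖ ≤ ‖B‖ ^ 2 := by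
      calc ‖B ^ (n + 2)‖ ≤ ‖B‖ ^ (n + 2) := norm_pow_le' _ (by omega)
        _ ≤ ‖B‖ ^ 2 := pow_le_pow_of_le_one (norm_nonneg _) hB (by omega)
    have h4 : (2 : ℝ) ^ (n + 1) ≤ ((n + 2).factorial : ℝ) := by
      exact_mod_cast two_pow_le_factorial n
    have h5 : (((n + 2).factorial : ℝ))⁻¹ ≤ (1 / 2 : ℝ) ^ (n + 1) := by
      rw [one_div, inv_pow]
      exact inv_anti₀ (by positivity) h4
    calc (((n + 2).factorial : ℝ))⁻¹ * ‖B ^ (n + 2)‖
        ≤ (1 / 2 : ℝ) ^ (n + 1) * ‖B‖ ^ 2 := by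
          apply mul_le_mul h5 h3 (norm_nonneg _) (by positivity)
      _ = ‖B‖ ^ 2 * (1 / 2 : ℝ) ^ (n + 1) := by ring
  have hgeo : HasSum (fun n : ℕ => ‖B‖ ^ 2 * (1 / 2 : ℝ) ^ (n + 1)) (‖B‖ ^ 2) := by
    have h := (hasSum_geometric_two).mul_left (‖B‖ ^ 2 * (1 / 2))
    have h6 : ‖B‖ ^ 2 * (1 / 2) * 2 = ‖B‖ ^ 2 := by ring
    rw [h6] at h
    have h7 : (fun n : ℕ => ‖B‖ ^ 2 * (1 / 2 : ℝ) ^ (n + 1)) =
        fun n : ℕ => ‖B‖ ^ 2 * (1 / 2) * (1 / 2 : ℝ) ^ n := by
      funext n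
      ring
    rw [h7]
    exact h
  rw [h2]
  exact tsum_of_norm_bounded hgeo hnorm

lemma norm_exp_sub_one_le (B : A) (hB : ‖B‖ ≤ 1) :
    ‖NormedSpace.exp B - 1‖ ≤ 2 * ‖B‖ := by
  have h := norm_exp_sub_one_sub_le B hB
  calc ‖NormedSpace.exp B - 1‖ = ‖(NormedSpace.exp B - 1 - B) + B‖ := by congr 1; abel
    _ ≤ ‖NormedSpace.exp B - 1 - B‖ + ‖B‖ := norm_add_le _ _
    _ ≤ ‖B‖ ^ 2 + ‖B‖ := by linarith
    _ ≤ 2 * ‖B‖ := by nlinarith [norm_nonneg B]

/-- the step sizes -/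
noncomputable def epsS (j : ℕ) : ℝ := (1 / 2 : ℝ) ^ ((j + 2) ^ 2)

lemma epsS_pos (j : ℕ) : 0 < epsS j := by unfold epsS; positivity

lemma epsS_succ (j : ℕ) : epsS (j + 1) = (1 / 2 : ℝ) ^ (2 * j + 5) * epsS j := by
  unfold epsS
  rw [← pow_add]
  congr 1
  ring

lemma epsS_le (j : ℕ) : epsS j ≤ (1 / 2 : ℝ) ^ (j + 4) := by
  unfold epsS
  apply pow_le_pow_of_le_one (by norm_num) (by norm_num)
  nlinarith

lemma epsS_succ_le_half (j : ℕ) : epsS (j + 1) ≤ epsS j / 2 := by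
  rw [epsS_succ]
  have : (1 / 2 : ℝ) ^ (2 * j + 5) ≤ 1 / 2 := by
    calc (1 / 2 : ℝ) ^ (2 * j + 5) ≤ (1 / 2 : ℝ) ^ 1 :=
          pow_le_pow_of_le_one (by norm_num) (by norm_num) (by omega)
      _ = 1 / 2 := by norm_num
  nlinarith [epsS_pos j]

lemma epsS_le_sixteenth (j : ℕ) : epsS j ≤ 1 / 16 := by
  refine (epsS_le j).trans ?_
  calc (1 / 2 : ℝ) ^ (j + 4) ≤ (1 / 2 : ℝ) ^ 4 :=
        pow_le_pow_of_le_one (by norm_num) (by norm_num) (by omega)
    _ = 1 / 16 := by norm_num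

section Main

variable (S Y : ℕ → A)

/-- the generator of the `j`-th rotation -/
noncomputable def Zg (j : ℕ) : A := (Y j + star (Y j)) * S j

/-- the `j`-th rotation -/
noncomputable def Gg (j : ℕ) : A := NormedSpace.exp ((epsS j) • Zg S Y j)

/-- partial products -/
noncomputable def Pg : ℕ → A
  | 0 => 1
  | (n + 1) => Pg n * Gg S Y n

end Main

/-- the algebraic hypotheses -/
structure Hyp (S Y : ℕ → A) : Prop where
  sa : ∀ j, IsSelfAdjoint (S j)
  sq : ∀ j, S j * S j = 1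
  bd : ∀ j, ‖Y j‖ ≤ 1
  anti : ∀ j, S j * Y j = - (Y j * S j)
  comm : ∀ k j, k < j → Commute (S j) (Y k)
  commS : ∀ k j, Commute (S j) (S k)

namespace Hyp

variable {S Y : ℕ → A} (h : Hyp S Y)
include h

lemma norm_S_le (j : ℕ) : ‖S j‖ ≤ 1 := by
  have h1 : ‖star (S j) * S j‖ = ‖S j‖ * ‖S j‖ := CStarRing.norm_star_mul_self
  rw [(h.sa j).star_eq, h.sq j] at h1
  rcases subsingleton_or_nontrivial A with hA | hA
  · have : S j = 0 := Subsingleton.elim _ _
    rw [this]; simp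
  · rw [CStarRing.norm_one] at h1
    nlinarith [norm_nonneg (S j)]

lemma anti_star (j : ℕ) : S j * star (Y j) = - (star (Y j) * S j) := by
  have := congrArg star (h.anti j)
  rw [star_neg, star_mul, star_mul, (h.sa j).star_eq] at this
  rw [this, neg_neg]

lemma comm_star (k j : ℕ) (hkj : k < j) : Commute (S j) (star (Y k)) := by
  have := (h.comm k j hkj).star_star
  rwa [(h.sa j).star_eq] at this

lemma X_anti (j : ℕ) : S j * (Y j + star (Y j)) = - ((Y j + star (Y j)) * S j) := by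
  rw [mul_add, add_mul, h.anti j, h.anti_star j]
  abel

lemma norm_X_le (j : ℕ) : ‖Y j + star (Y j)‖ ≤ 2 := by
  calc ‖Y j + star (Y j)‖ ≤ ‖Y j‖ + ‖star (Y j)‖ := norm_add_le _ _
    _ ≤ 1 + 1 := by rw [norm_star]; linarith [h.bd j]
    _ = 2 := by norm_num

lemma norm_Z_le (j : ℕ) : ‖Zg S Y j‖ ≤ 2 := by
  unfold Zg
  calc _ ≤ ‖Y j + star (Y j)‖ * ‖S j‖ := norm_mul_le _ _
    _ ≤ 2 * 1 := by
        apply mul_le_mul (h.norm_X_le j) (h.norm_S_le j) (norm_nonneg _) (by norm_num)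
    _ = 2 := by norm_num

lemma star_Z (j : ℕ) : star (Zg S Y j) = - Zg S Y j := by
  unfold Zg
  rw [star_mul, (h.sa j).star_eq, star_add, star_star, add_comm (star (Y j)) (Y j), h.X_anti j]

lemma S_Z (j : ℕ) : S j * Zg S Y j = - (Y j + star (Y j)) := by
  unfold Zg
  rw [← mul_assoc, h.X_anti j, neg_mul, mul_assoc, h.sq j, mul_one]

lemma Z_S (j : ℕ) : Zg S Y j * S j = (Y j + star (Y j)) := by
  unfold Zg
  rw [mul_assoc, h.sq j, mul_one]

lemma comm_Z (k j : ℕ) (hkj : k < j) : Commute (S j) (Zg S Y k) := by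
  unfold Zg
  exact ((h.comm k j hkj).add_right (h.comm_star k j hkj)).mul_right (h.commS k j)

lemma comm_G (k j : ℕ) (hkj : k < j) : Commute (S j) (Gg S Y k) := by
  let _ : NormedAlgebra ℚ A := NormedAlgebra.restrictScalars ℚ ℂ A
  unfold Gg
  exact ((h.comm_Z k j hkj).smul_right _).exp_right

lemma G_mem (j : ℕ) : Gg S Y j ∈ unitary A := by
  let _ : NormedAlgebra ℚ A := NormedAlgebra.restrictScalars ℚ ℂ A
  unfold Gg
  apply NormedSpace.exp_mem_unitary_of_mem_skewAdjoint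
  rw [skewAdjoint.mem_iff, star_smul, h.star_Z]
  simp

lemma P_mem (n : ℕ) : Pg S Y n ∈ unitary A := by
  induction n with
  | zero => exact one_mem _
  | succ n ih => exact mul_mem ih (h.G_mem n)

lemma comm_P (n j : ℕ) (hn : n ≤ j) : Commute (S j) (Pg S Y n) := by
  induction n with
  | zero => exact Commute.one_right _
  | succ n ih => exact (ih (by omega)).mul_right (h.comm_G n j (by omega))

lemma norm_epsZ_le (j : ℕ) : ‖(epsS j) • Zg S Y j‖ ≤ 2 * epsS j := by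
  rw [norm_smul, Real.norm_of_nonneg (epsS_pos j).le]
  nlinarith [h.norm_Z_le j, epsS_pos j]

lemma norm_G_sub_one_le (j : ℕ) : ‖Gg S Y j - 1‖ ≤ 4 * epsS j := by
  have h1 := h.norm_epsZ_le j
  have h2 := epsS_le_sixteenth j
  have h3 := norm_exp_sub_one_le ((epsS j) • Zg S Y j) (by linarith)
  unfold Gg
  linarith

lemma Z_anti (j : ℕ) : S j * Zg S Y j * S j = - Zg S Y j := by
  rw [h.S_Z]
  unfold Zg
  rw [neg_mul]

lemma star_G_mul_S (j : ℕ) : star (Gg S Y j) * S j = S j * Gg S Y j := by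
  let _ : NormedAlgebra ℚ A := NormedAlgebra.restrictScalars ℚ ℂ A
  have hu : IsUnit (S j) := ⟨⟨S j, S j, h.sq j, h.sq j⟩, rfl⟩
  have h1 : star (Gg S Y j) = NormedSpace.exp (- (epsS j • Zg S Y j)) := by
    unfold Gg
    rw [NormedSpace.star_exp, star_smul, h.star_Z]
    simp
  have h2 : NormedSpace.exp (S j * (epsS j • Zg S Y j) * S j) =
      S j * NormedSpace.exp (epsS j • Zg S Y j) * S j :=
    NormedSpace.exp_units_conj (⟨S j, S j, h.sq j, h.sq j⟩ : Aˣ) _
  have h3 : S j * (epsS j • Zg S Y j) * S j = - (epsS j • Zg S Y j) := by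
    rw [mul_smul_comm, smul_mul_assoc, h.Z_anti, smul_neg]
  rw [h3] at h2
  rw [h1, h2, mul_assoc, h.sq j, mul_one]
  rfl

lemma star_G_S_G (j : ℕ) : star (Gg S Y j) * S j * Gg S Y j = S j * (Gg S Y j * Gg S Y j) := by
  rw [h.star_G_mul_S, mul_assoc]

lemma S_GG (j : ℕ) :
    ‖S j * (Gg S Y j * Gg S Y j) - S j + (2 * epsS j) • (Y j + star (Y j))‖ ≤
      16 * epsS j ^ 2 := by
  let _ : NormedAlgebra ℚ A := NormedAlgebra.restrictScalars ℚ ℂ A
  have h1 : Gg S Y j * Gg S Y j = NormedSpace.exp ((2 * epsS j) • Zg S Y j) := by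
    unfold Gg
    rw [← NormedSpace.exp_add_of_commute (Commute.refl _)]
    congr 1
    rw [two_mul, add_smul]
  have h2 : S j * (Gg S Y j * Gg S Y j) - S j + (2 * epsS j) • (Y j + star (Y j)) =
      S j * (NormedSpace.exp ((2 * epsS j) • Zg S Y j) - 1 - (2 * epsS j) • Zg S Y j) := by
    rw [h1, mul_sub, mul_sub, mul_one, mul_smul_comm, h.S_Z, smul_neg, sub_neg_eq_add]
  have h3 : ‖(2 * epsS j) • Zg S Y j‖ ≤ 4 * epsS j := by
    rw [norm_smul, Real.norm_of_nonneg (by have := epsS_pos j; linarith)]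
    nlinarith [h.norm_Z_le j, epsS_pos j]
  have h4 := norm_exp_sub_one_sub_le ((2 * epsS j) • Zg S Y j)
    (by have := epsS_le_sixteenth j; linarith)
  rw [h2]
  calc _ ≤ ‖S j‖ * ‖NormedSpace.exp ((2 * epsS j) • Zg S Y j) - 1 - (2 * epsS j) • Zg S Y j‖ :=
        norm_mul_le _ _
    _ ≤ 1 * ‖(2 * epsS j) • Zg S Y j‖ ^ 2 :=
        mul_le_mul (h.norm_S_le j) h4 (norm_nonneg _) (by norm_num)
    _ ≤ 16 * epsS j ^ 2 := by
        have := norm_nonneg ((2 * epsS j) • Zg S Y j)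
        nlinarith [epsS_pos j]

omit h in
lemma norm_le_one_of_mem {u : A} (hu : u ∈ unitary A) : ‖u‖ ≤ 1 := by
  have h1 : ‖star u * u‖ = ‖u‖ * ‖u‖ := CStarRing.norm_star_mul_self
  rw [(Unitary.mem_iff.1 hu).1] at h1
  rcases subsingleton_or_nontrivial A with hA | hA
  · have : u = 0 := Subsingleton.elim _ _
    rw [this]; simp
  · rw [CStarRing.norm_one] at h1
    nlinarith [norm_nonneg u]

lemma main_bound (j : ℕ) (n : ℕ) (hn : j + 1 ≤ n) :
    ‖star (Pg S Y n) * S j * Pg S Y n - S j * (Gg S Y j * Gg S Y j)‖ ≤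
      16 * (epsS (j + 1) - epsS n) := by
  induction n, hn using Nat.le_induction with
  | base =>
    have h1 : star (Pg S Y (j + 1)) * S j * Pg S Y (j + 1) = S j * (Gg S Y j * Gg S Y j) := by
      show star (Pg S Y j * Gg S Y j) * S j * (Pg S Y j * Gg S Y j) = _
      have hc : S j * Pg S Y j = Pg S Y j * S j := (h.comm_P j j le_rfl).eq
      have hu : star (Pg S Y j) * Pg S Y j = 1 := (Unitary.mem_iff.1 (h.P_mem j)).1
      calc star (Pg S Y j * Gg S Y j) * S j * (Pg S Y j * Gg S Y j)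
          = star (Gg S Y j) * (star (Pg S Y j) * (S j * Pg S Y j)) * Gg S Y j := by
            rw [star_mul]; noncomm_ring
        _ = star (Gg S Y j) * ((star (Pg S Y j) * Pg S Y j) * S j) * Gg S Y j := by
            rw [hc]; noncomm_ring
        _ = star (Gg S Y j) * S j * Gg S Y j := by rw [hu, one_mul]
        _ = _ := h.star_G_S_G j
    rw [h1]; simp
  | succ n hn ih =>
    have hG := h.G_mem n
    have hGu : star (Gg S Y n) * Gg S Y n = 1 := (Unitary.mem_iff.1 hG).1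
    have hGs : ‖star (Gg S Y n)‖ ≤ 1 := by rw [norm_star]; exact norm_le_one_of_mem hG
    set M : A := star (Pg S Y n) * S j * Pg S Y n with hM
    have hMn : ‖M‖ ≤ 1 := by
      have hP : ‖Pg S Y n‖ ≤ 1 := norm_le_one_of_mem (h.P_mem n)
      calc ‖M‖ ≤ ‖star (Pg S Y n) * S j‖ * ‖Pg S Y n‖ := norm_mul_le _ _
        _ ≤ (‖star (Pg S Y n)‖ * ‖S j‖) * ‖Pg S Y n‖ := by
            gcongr; exact norm_mul_le _ _
        _ ≤ (1 * 1) * 1 := by
            have := h.norm_S_le j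
            rw [norm_star]
            gcongr
        _ = 1 := by norm_num
    have h1 : star (Pg S Y (n + 1)) * S j * Pg S Y (n + 1) = star (Gg S Y n) * M * Gg S Y n := by
      show star (Pg S Y n * Gg S Y n) * S j * (Pg S Y n * Gg S Y n) = _
      rw [star_mul, hM]; noncomm_ring
    have h2 : star (Gg S Y n) * M * Gg S Y n - M =
        star (Gg S Y n) * (M * (Gg S Y n - 1) - (Gg S Y n - 1) * M) := by
      have : M = (star (Gg S Y n) * Gg S Y n) * M := by rw [hGu, one_mul]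
      calc star (Gg S Y n) * M * Gg S Y n - M
          = star (Gg S Y n) * M * Gg S Y n - (star (Gg S Y n) * Gg S Y n) * M := by
            rw [← this]
        _ = _ := by noncomm_ring
    have h3 : ‖star (Gg S Y n) * M * Gg S Y n - M‖ ≤ 8 * epsS n := by
      rw [h2]
      have hg := h.norm_G_sub_one_le n
      calc _ ≤ ‖star (Gg S Y n)‖ * ‖M * (Gg S Y n - 1) - (Gg S Y n - 1) * M‖ := norm_mul_le _ _
        _ ≤ 1 * (‖M * (Gg S Y n - 1)‖ + ‖(Gg S Y n - 1) * M‖) :=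
            mul_le_mul hGs (norm_sub_le _ _) (norm_nonneg _) (by norm_num)
        _ ≤ 1 * (‖M‖ * ‖Gg S Y n - 1‖ + ‖Gg S Y n - 1‖ * ‖M‖) := by
            gcongr
            · exact norm_mul_le _ _
            · exact norm_mul_le _ _
        _ ≤ 1 * (1 * (4 * epsS n) + (4 * epsS n) * 1) := by
            have := epsS_pos n
            gcongr
        _ = 8 * epsS n := by ring
    rw [h1]
    calc ‖star (Gg S Y n) * M * Gg S Y n - S j * (Gg S Y j * Gg S Y j)‖
        = ‖(star (Gg S Y n) * M * Gg S Y n - M) + (M - S j * (Gg S Y j * Gg S Y j))‖ := by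
          congr 1; abel
      _ ≤ ‖star (Gg S Y n) * M * Gg S Y n - M‖ + ‖M - S j * (Gg S Y j * Gg S Y j)‖ :=
          norm_add_le _ _
      _ ≤ 8 * epsS n + 16 * (epsS (j + 1) - epsS n) := add_le_add h3 ih
      _ ≤ 16 * (epsS (j + 1) - epsS (n + 1)) := by
          have := epsS_succ_le_half n
          linarith

lemma exists_limit : ∃ W ∈ unitary A, Tendsto (Pg S Y) atTop (𝓝 W) := by
  have hd : ∀ n, dist (Pg S Y n) (Pg S Y (n + 1)) ≤ (1 / 4) * (1 / 2 : ℝ) ^ n := by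
    intro n
    have hP : ‖Pg S Y n‖ ≤ 1 := norm_le_one_of_mem (h.P_mem n)
    rw [dist_comm, dist_eq_norm]
    have : Pg S Y (n + 1) - Pg S Y n = Pg S Y n * (Gg S Y n - 1) := by
      show Pg S Y n * Gg S Y n - Pg S Y n = _
      rw [mul_sub, mul_one]
    rw [this]
    calc _ ≤ ‖Pg S Y n‖ * ‖Gg S Y n - 1‖ := norm_mul_le _ _
      _ ≤ 1 * (4 * epsS n) :=
          mul_le_mul hP (h.norm_G_sub_one_le n) (norm_nonneg _) (by norm_num)
      _ ≤ 1 * (4 * (1 / 2 : ℝ) ^ (n + 4)) := by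
          have := epsS_le n
          gcongr
      _ = (1 / 4) * (1 / 2 : ℝ) ^ n := by rw [pow_add]; norm_num; ring
  have hc : CauchySeq (Pg S Y) := cauchySeq_of_le_geometric (1 / 2) (1 / 4) (by norm_num) hd
  obtain ⟨W, hW⟩ := cauchySeq_tendsto_of_complete hc
  exact ⟨W, isClosed_unitary.mem_of_tendsto hW (Eventually.of_forall h.P_mem), hW⟩

/-- The abstract theorem. -/
theorem exists_unitary : ∃ W ∈ unitary A, ∃ r : ℕ → ℝ,
    Tendsto (fun j => r j • (star W * S j * W - S j) + (Y j + star (Y j))) atTop (𝓝 0) := by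
  obtain ⟨W, hWu, hW⟩ := h.exists_limit
  refine ⟨W, hWu, fun j => (2 * epsS j)⁻¹, ?_⟩
  have hb : ∀ j, ‖star W * S j * W - S j * (Gg S Y j * Gg S Y j)‖ ≤ 16 * epsS (j + 1) := by
    intro j
    have ht : Tendsto (fun n => ‖star (Pg S Y n) * S j * Pg S Y n -
        S j * (Gg S Y j * Gg S Y j)‖) atTop
        (𝓝 ‖star W * S j * W - S j * (Gg S Y j * Gg S Y j)‖) := by
      apply Tendsto.norm
      apply Tendsto.sub_const
      exact ((hW.star).mul_const _).mul hW
    refine le_of_tendsto ht ?_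
    filter_upwards [eventually_ge_atTop (j + 1)] with n hn
    have := h.main_bound j n hn
    have := epsS_pos n
    linarith
  have hb2 : ∀ j, ‖(2 * epsS j)⁻¹ • (star W * S j * W - S j) + (Y j + star (Y j))‖ ≤
      8 * (1 / 2 : ℝ) ^ (2 * j + 5) + 8 * (1 / 2 : ℝ) ^ (j + 4) := by
    intro j
    have hp := epsS_pos j
    have h1 : (2 * epsS j)⁻¹ • (star W * S j * W - S j) + (Y j + star (Y j)) =
        (2 * epsS j)⁻¹ • ((star W * S j * W - S j * (Gg S Y j * Gg S Y j)) +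
          (S j * (Gg S Y j * Gg S Y j) - S j + (2 * epsS j) • (Y j + star (Y j)))) := by
      set X := Y j + star (Y j) with hX
      rw [smul_add, smul_add, smul_smul, inv_mul_cancel₀ (by positivity), one_smul]
      rw [smul_sub, smul_sub, smul_sub]
      abel
    rw [h1, norm_smul, Real.norm_of_nonneg (by positivity)]
    calc _ ≤ (2 * epsS j)⁻¹ * (16 * epsS (j + 1) + 16 * epsS j ^ 2) := by
          gcongr
          exact (norm_add_le _ _).trans (add_le_add (hb j) (h.S_GG j))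
      _ = 8 * (1 / 2 : ℝ) ^ (2 * j + 5) + 8 * epsS j := by
          rw [epsS_succ]
          field_simp
          ring
      _ ≤ _ := by
          have := epsS_le j
          gcongr
  rw [tendsto_zero_iff_norm_tendsto_zero]
  refine squeeze_zero (fun _ => norm_nonneg _) hb2 ?_
  have t1 : Tendsto (fun j : ℕ => 8 * (1 / 2 : ℝ) ^ (2 * j + 5)) atTop (𝓝 (8 * 0)) := by
    apply Tendsto.const_mul
    apply (tendsto_pow_atTop_nhds_zero_of_lt_one (by norm_num) (by norm_num)).comp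
    exact tendsto_atTop_mono (f := fun j => j) (by intro j; omega) tendsto_id
  have t2 : Tendsto (fun j : ℕ => 8 * (1 / 2 : ℝ) ^ (j + 4)) atTop (𝓝 (8 * 0)) := by
    apply Tendsto.const_mul
    apply (tendsto_pow_atTop_nhds_zero_of_lt_one (by norm_num) (by norm_num)).comp
    exact tendsto_atTop_mono (f := fun j => j) (by intro j; omega) tendsto_id
  simpa using t1.add t2

end Hyp

end Pool.Agent.MP_a6b860_an
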