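import Pool.Agent.Lib.MP_a6b860_an.Final

/-! The unitary operator can be taken arbitrarily close to the identity. -/

set_option autoImplicit false
open MeasureTheory Filter Topology
open scoped ENNReal InnerProductSpace

namespace Pool.Agent.MP_a6b860_an

section Abs

variable {A : Type*} [CStarAlgebra A] {S Y : ℕ → A}

lemma Hyp.scale (h : Hyp S Y) {η : ℝ} (h0 : 0 ≤ η) (h1 : η ≤ 1) : Hyp S (fun j => η • Y j) where
  sa := h.sa
  sq := h.sq
  bd j := by
    rw [norm_smul, Real.norm_of_nonneg h0]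
    have := h.bd j
    have := norm_nonneg (Y j)
    nlinarith
  anti j := by rw [mul_smul_comm, h.anti j, smul_mul_assoc, smul_neg]
  comm k j hkj := (h.comm k j hkj).smul_right η
  commS := h.commS

lemma norm_P_sub_one (h : Hyp S Y) {η : ℝ} (h0 : 0 ≤ η) (h1 : η ≤ 1) (n : ℕ) :
    ‖Pg S (fun j => η • Y j) n - 1‖ ≤ η / 2 * (1 - (1 / 2 : ℝ) ^ n) := by
  have h' := h.scale h0 h1
  induction n with
  | zero => simp [Pg]
  | succ n ih =>
    have hZ : ‖Zg S (fun j => η • Y j) n‖ ≤ 2 * η := by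
      have e : Zg S (fun j => η • Y j) n = η • Zg S Y n := by
        unfold Zg
        rw [star_smul, ← smul_mul_assoc, smul_add]
        simp
      rw [e, norm_smul, Real.norm_of_nonneg h0]
      nlinarith [h.norm_Z_le n]
    have hE : ‖(epsS n) • Zg S (fun j => η • Y j) n‖ ≤ 2 * η * epsS n := by
      rw [norm_smul, Real.norm_of_nonneg (epsS_pos n).le]
      nlinarith [epsS_pos n]
    have hG : ‖Gg S (fun j => η • Y j) n - 1‖ ≤ 4 * η * epsS n := by
      have h2 := epsS_le_sixteenth n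
      have h3 := norm_exp_sub_one_le ((epsS n) • Zg S (fun j => η • Y j) n) (by
        have := epsS_pos n
        nlinarith)
      unfold Gg
      linarith
    have hP : ‖Pg S (fun j => η • Y j) n‖ ≤ 1 := Hyp.norm_le_one_of_mem (h'.P_mem n)
    have e : Pg S (fun j => η • Y j) (n + 1) - 1 =
        Pg S (fun j => η • Y j) n * (Gg S (fun j => η • Y j) n - 1) +
          (Pg S (fun j => η • Y j) n - 1) := by
      show Pg S (fun j => η • Y j) n * Gg S (fun j => η • Y j) n - 1 = _
      rw [mul_sub, mul_one]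
      abel
    rw [e]
    calc _ ≤ ‖Pg S (fun j => η • Y j) n * (Gg S (fun j => η • Y j) n - 1)‖ +
          ‖Pg S (fun j => η • Y j) n - 1‖ := norm_add_le _ _
      _ ≤ ‖Pg S (fun j => η • Y j) n‖ * ‖Gg S (fun j => η • Y j) n - 1‖ +
          ‖Pg S (fun j => η • Y j) n - 1‖ := by gcongr; exact norm_mul_le _ _
      _ ≤ 1 * (4 * η * epsS n) + η / 2 * (1 - (1 / 2 : ℝ) ^ n) := by
          have := epsS_pos n
          gcongr
      _ ≤ η / 2 * (1 - (1 / 2 : ℝ) ^ (n + 1)) := by
          have h4 := epsS_le n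
          have h5 : (1 / 2 : ℝ) ^ (n + 4) = (1 / 2 : ℝ) ^ n * (1 / 16) := by
            rw [pow_add]; norm_num
          have h6 : (1 / 2 : ℝ) ^ (n + 1) = (1 / 2 : ℝ) ^ n * (1 / 2) := by rw [pow_succ]
          rw [h5] at h4
          rw [h6]
          nlinarith

/-- The abstract theorem with a unitary close to the identity. -/
theorem exists_unitary_close (h0 : Hyp S Y) {η : ℝ} (hη : 0 < η) (hη1 : η ≤ 1) :
    ∃ W ∈ unitary A, ‖W - 1‖ ≤ η ∧ ∃ r : ℕ → ℝ,
      Tendsto (fun j => r j • (star W * S j * W - S j) + (Y j + star (Y j))) atTop (𝓝 0) := by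
  have h := h0.scale hη.le hη1
  obtain ⟨Y', hY'⟩ : ∃ Y' : ℕ → A, Y' = fun j => η • Y j := ⟨_, rfl⟩
  have hPn := norm_P_sub_one h0 hη.le hη1
  rw [← hY'] at h hPn
  obtain ⟨W, hWu, hW⟩ := h.exists_limit
  have hclose : ‖W - 1‖ ≤ η := by
    have ht := (hW.sub_const (1 : A)).norm
    refine le_of_tendsto ht (Eventually.of_forall fun n => (hPn n).trans ?_)
    have : (0 : ℝ) ≤ (1 / 2 : ℝ) ^ n := by positivity
    nlinarith
  have hb : ∀ j, ‖star W * S j * W - S j * (Gg S Y' j * Gg S Y' j)‖ ≤ 16 * epsS (j + 1) := by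
    intro j
    have ht : Tendsto (fun n => ‖star (Pg S Y' n) * S j * Pg S Y' n -
        S j * (Gg S Y' j * Gg S Y' j)‖) atTop
        (𝓝 ‖star W * S j * W - S j * (Gg S Y' j * Gg S Y' j)‖) := by
      apply Tendsto.norm
      apply Tendsto.sub_const
      exact ((hW.star).mul_const _).mul hW
    refine le_of_tendsto ht ?_
    filter_upwards [eventually_ge_atTop (j + 1)] with n hn
    have := h.main_bound j n hn
    have := epsS_pos n
    linarith
  have hb2 : ∀ j, ‖(2 * epsS j)⁻¹ • (star W * S j * W - S j) + (Y' j + star (Y' j))‖ ≤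
      8 * (1 / 2 : ℝ) ^ (2 * j + 5) + 8 * (1 / 2 : ℝ) ^ (j + 4) := by
    intro j
    have hp := epsS_pos j
    have h1 : (2 * epsS j)⁻¹ • (star W * S j * W - S j) + (Y' j + star (Y' j)) =
        (2 * epsS j)⁻¹ • ((star W * S j * W - S j * (Gg S Y' j * Gg S Y' j)) +
          (S j * (Gg S Y' j * Gg S Y' j) - S j + (2 * epsS j) • (Y' j + star (Y' j)))) := by
      set X := Y' j + star (Y' j) with hX
      rw [smul_add, smul_add, smul_smul, inv_mul_cancel₀ (by positivity), one_smul]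
      rw [smul_sub, smul_sub, smul_sub]
      abel
    rw [h1, norm_smul, Real.norm_of_nonneg (by positivity)]
    calc _ ≤ (2 * epsS j)⁻¹ * (16 * epsS (j + 1) + 16 * epsS j ^ 2) := by
          gcongr
          exact (norm_add_le _ _).trans (add_le_add (hb j) (h.S_GG j))
      _ = 8 * (1 / 2 : ℝ) ^ (2 * j + 5) + 8 * epsS j := by
          rw [epsS_succ]
          field_simp
          ring
      _ ≤ _ := by
          have := epsS_le j
          gcongr
  have t0 : Tendsto (fun j => (2 * epsS j)⁻¹ • (star W * S j * W - S j) + (Y' j + star (Y' j)))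
      atTop (𝓝 0) := by
    rw [tendsto_zero_iff_norm_tendsto_zero]
    refine squeeze_zero (fun _ => norm_nonneg _) hb2 ?_
    have t1 : Tendsto (fun j : ℕ => 8 * (1 / 2 : ℝ) ^ (2 * j + 5)) atTop (𝓝 (8 * 0)) := by
      apply Tendsto.const_mul
      apply (tendsto_pow_atTop_nhds_zero_of_lt_one (by norm_num) (by norm_num)).comp
      exact tendsto_atTop_mono (f := fun j => j) (by intro j; omega) tendsto_id
    have t2 : Tendsto (fun j : ℕ => 8 * (1 / 2 : ℝ) ^ (j + 4)) atTop (𝓝 (8 * 0)) := by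
      apply Tendsto.const_mul
      apply (tendsto_pow_atTop_nhds_zero_of_lt_one (by norm_num) (by norm_num)).comp
      exact tendsto_atTop_mono (f := fun j => j) (by intro j; omega) tendsto_id
    simpa using t1.add t2
  refine ⟨W, hWu, hclose, fun j => η⁻¹ * (2 * epsS j)⁻¹, ?_⟩
  have t3 := t0.const_smul (η⁻¹)
  rw [smul_zero] at t3
  refine t3.congr fun j => ?_
  have e : Y' j + star (Y' j) = η • (Y j + star (Y j)) := by
    rw [hY']
    simp [star_smul, smul_add]
  rw [e, smul_add, smul_smul, smul_smul, inv_mul_cancel₀ hη.ne', one_smul]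

end Abs

section Final

variable {d : ℕ}

/-- Two moduli suffice, with an operator close to the identity. -/
theorem two_moduli_close (i0 : Fin d) {δ : ℝ} (hδ : 0 < δ) :
    ∃ U : Lp ℂ 2 (volume : Measure (EuclideanSpace ℝ (Fin d))) ≃ₗᵢ[ℂ]
        Lp ℂ 2 (volume : Measure (EuclideanSpace ℝ (Fin d))),
      (∀ f, ‖U f - f‖ ≤ δ * ‖f‖) ∧
      ∀ f g : Lp ℂ 2 (volume : Measure (EuclideanSpace ℝ (Fin d))),
        (∀ᵐ x ∂(volume : Measure (EuclideanSpace ℝ (Fin d))), ‖f x‖ = ‖g x‖) →
        (∀ᵐ x ∂(volume : Measure (EuclideanSpace ℝ (Fin d))), ‖(U f) x‖ = ‖(U g) x‖) →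
        ∃ c : ℂ, ‖c‖ = 1 ∧ f = c • g := by
  obtain ⟨u, hu⟩ := exists_frequent ((Finset ℕ × Bool) × ℕ)
  have hH := hyp i0 (fun j => hfun (u j).1.1 (u j).1.2)
    (fun j => measurable_hfun (u j).1.1 (u j).1.2)
    (fun j => norm_hfun_le (u j).1.1 (u j).1.2)
    (fun j => TopologicalSpace.denseSeq (EuclideanSpace ℝ (Fin d)) (u j).2)
  obtain ⟨W, hW, hWc, r, ht⟩ := exists_unitary_close hH (lt_min hδ one_pos) (min_le_right δ 1)
  refine ⟨Unitary.linearIsometryEquiv ⟨W, hW⟩, ?_, ?_⟩
  · intro f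
    have h1 := (W - 1).le_opNorm f
    have h2 : ‖W - 1‖ ≤ δ := hWc.trans (min_le_left _ _)
    have h3 : (W - 1) f = Unitary.linearIsometryEquiv ⟨W, hW⟩ f - f := rfl
    rw [h3] at h1
    exact h1.trans (mul_le_mul_of_nonneg_right h2 (norm_nonneg _))
  intro f g hfg hUfg
  have hUfg' : ∀ᵐ x ∂(volume : Measure (EuclideanSpace ℝ (Fin d))), ‖(W f) x‖ = ‖(W g) x‖ := hUfg
  have hlim := key_limit ht f g (fun j => inner_mulF_congr _ _ _ f g hfg)
    (fun j => inner_mulF_congr _ _ _ (W f) (W g) hUfg')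
  exact phase_of_products f g hfg (fun q => products_of_Phi f g q
    (fun i => zero_of_limit i0 (Phi f g) (continuous_Phi f g) u hu hlim i q))

end Final

end Pool.Agent.MP_a6b860_an
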