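import Mathlib
import Pool.Agent.Lib.MP_a6b860_an.Abstract

set_option autoImplicit false
open MeasureTheory Filter Topology
open scoped ENNReal InnerProductSpace

namespace Pool.Agent.MP_a6b860_an

section Mul

variable {X : Type*} [MeasurableSpace X] {μ : Measure X}

/-- a bounded measurable function as an element of `L^∞` -/
noncomputable def bLp (μ : Measure X) (b : X → ℂ) (hb : Measurable b) (hb1 : ∀ x, ‖b x‖ ≤ 1) :
    Lp ℂ ∞ μ :=
  (memLp_top_of_bound hb.aestronglyMeasurable 1 (Eventually.of_forall hb1)).toLp b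

/-- multiplication by a measurable function bounded by one -/
noncomputable def mulF (μ : Measure X) (b : X → ℂ) (hb : Measurable b) (hb1 : ∀ x, ‖b x‖ ≤ 1) :
    Lp ℂ 2 μ →L[ℂ] Lp ℂ 2 μ :=
  (ContinuousLinearMap.mul ℂ ℂ).holderL μ ∞ 2 2 (bLp μ b hb hb1)

lemma mulF_apply (b : X → ℂ) (hb : Measurable b) (hb1 : ∀ x, ‖b x‖ ≤ 1) (f : Lp ℂ 2 μ) :
    mulF μ b hb hb1 f =ᵐ[μ] fun x => b x * f x := by
  have h1 := (ContinuousLinearMap.mul ℂ ℂ).coeFn_holder (r := 2) (bLp μ b hb hb1) f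
  have h2 : bLp μ b hb hb1 =ᵐ[μ] b := MemLp.coeFn_toLp _
  unfold mulF
  filter_upwards [h1, h2] with x hx1 hx2
  rw [ContinuousLinearMap.holderL_apply_apply, hx1, hx2]
  rfl

lemma norm_mulF_apply_le (b : X → ℂ) (hb : Measurable b) (hb1 : ∀ x, ‖b x‖ ≤ 1) (f : Lp ℂ 2 μ) :
    ‖mulF μ b hb hb1 f‖ ≤ ‖f‖ := by
  apply Lp.norm_le_norm_of_ae_le
  filter_upwards [mulF_apply b hb hb1 f] with x hx
  rw [hx, norm_mul]
  have := hb1 x
  nlinarith [norm_nonneg (f x)]

lemma norm_mulF_le (b : X → ℂ) (hb : Measurable b) (hb1 : ∀ x, ‖b x‖ ≤ 1) :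
    ‖mulF μ b hb hb1‖ ≤ 1 :=
  ContinuousLinearMap.opNorm_le_bound _ zero_le_one (fun f => by
    rw [one_mul]; exact norm_mulF_apply_le b hb hb1 f)

/-- the quadratic form of a multiplication operator only sees the modulus -/
lemma inner_mulF_congr (b : X → ℂ) (hb : Measurable b) (hb1 : ∀ x, ‖b x‖ ≤ 1) (f g : Lp ℂ 2 μ)
    (h : ∀ᵐ x ∂μ, ‖f x‖ = ‖g x‖) :
    ⟪f, mulF μ b hb hb1 f⟫_ℂ = ⟪g, mulF μ b hb hb1 g⟫_ℂ := by
  rw [L2.inner_def, L2.inner_def]
  apply integral_congr_ae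
  filter_upwards [h, mulF_apply b hb hb1 f, mulF_apply b hb hb1 g] with x hx h1 h2
  rw [h1, h2]
  have e : ∀ z : ℂ, ⟪z, b x * z⟫_ℂ = b x * ((‖z‖ : ℂ) ^ 2) := by
    intro z
    rw [RCLike.inner_apply]
    have := RCLike.mul_conj (K := ℂ) z
    calc b x * z * (starRingEnd ℂ) z = b x * (z * (starRingEnd ℂ) z) := by ring
      _ = _ := by rw [this]; rfl
  rw [e, e, hx]

lemma isSelfAdjoint_mulF (b : X → ℂ) (hb : Measurable b) (hb1 : ∀ x, ‖b x‖ ≤ 1)
    (hr : ∀ x, (starRingEnd ℂ) (b x) = b x) : IsSelfAdjoint (mulF μ b hb hb1) := by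
  rw [ContinuousLinearMap.isSelfAdjoint_iff_isSymmetric]
  intro f g
  show ⟪mulF μ b hb hb1 f, g⟫_ℂ = ⟪f, mulF μ b hb hb1 g⟫_ℂ
  rw [L2.inner_def, L2.inner_def]
  apply integral_congr_ae
  filter_upwards [mulF_apply b hb hb1 f, mulF_apply b hb hb1 g] with x h1 h2
  rw [h1, h2, RCLike.inner_apply, RCLike.inner_apply, map_mul, hr]
  ring

end Mul

section Trans

variable {d : ℕ}

/-- translation operator -/
noncomputable def trans (q : (EuclideanSpace ℝ (Fin d))) :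
    Lp ℂ 2 (volume : Measure (EuclideanSpace ℝ (Fin d))) →L[ℂ] Lp ℂ 2 (volume : Measure (EuclideanSpace ℝ (Fin d))) :=
  (Lp.compMeasurePreservingₗᵢ ℂ (fun x : (EuclideanSpace ℝ (Fin d)) => x + q)
    (measurePreserving_add_right volume q)).toContinuousLinearMap

lemma trans_apply (q : (EuclideanSpace ℝ (Fin d))) (f : Lp ℂ 2 (volume : Measure (EuclideanSpace ℝ (Fin d)))) :
    trans q f =ᵐ[volume] fun x => f (x + q) :=
  Lp.coeFn_compMeasurePreserving f (measurePreserving_add_right volume q)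

lemma norm_trans_apply (q : (EuclideanSpace ℝ (Fin d))) (f : Lp ℂ 2 (volume : Measure (EuclideanSpace ℝ (Fin d)))) : ‖trans q f‖ = ‖f‖ :=
  Lp.norm_compMeasurePreserving f (measurePreserving_add_right volume q)

lemma norm_trans_le (q : (EuclideanSpace ℝ (Fin d))) : ‖(trans q : Lp ℂ 2 (volume : Measure (EuclideanSpace ℝ (Fin d))) →L[ℂ] _)‖ ≤ 1 :=
  ContinuousLinearMap.opNorm_le_bound _ zero_le_one (fun f => by
    rw [one_mul]; exact (norm_trans_apply q f).le)

lemma continuous_trans (f : Lp ℂ 2 (volume : Measure (EuclideanSpace ℝ (Fin d)))) : Continuous (fun q : (EuclideanSpace ℝ (Fin d)) => trans q f) := by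
  have hg : Continuous (fun q : (EuclideanSpace ℝ (Fin d)) => (ContinuousMap.curry
      (⟨fun p : (EuclideanSpace ℝ (Fin d)) × (EuclideanSpace ℝ (Fin d)) => p.2 + p.1, by fun_prop⟩ : C((EuclideanSpace ℝ (Fin d)) × (EuclideanSpace ℝ (Fin d)), (EuclideanSpace ℝ (Fin d))))) q) :=
    (ContinuousMap.curry _).continuous
  exact Continuous.compMeasurePreservingLp (f := fun _ : (EuclideanSpace ℝ (Fin d)) => f) continuous_const hg
    (fun q => measurePreserving_add_right volume q) (by norm_num)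

lemma ae_shift {p : (EuclideanSpace ℝ (Fin d)) → Prop} (q : (EuclideanSpace ℝ (Fin d))) (h : ∀ᵐ x ∂(volume : Measure (EuclideanSpace ℝ (Fin d))), p x) :
    ∀ᵐ x ∂(volume : Measure (EuclideanSpace ℝ (Fin d))), p (x + q) :=
  (measurePreserving_add_right volume q).quasiMeasurePreserving.ae h

end Trans

end Pool.Agent.MP_a6b860_an
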