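import Mathlib
import Pool.Agent.Lib.MP_a6b860_an.Concrete

set_option autoImplicit false
open MeasureTheory Filter Topology
open scoped ENNReal InnerProductSpace

namespace Pool.Agent.MP_a6b860_an

/-- every element of a countable type is hit infinitely often -/
lemma exists_frequent (ι : Type*) [Countable ι] [Nonempty ι] :
    ∃ u : ℕ → ι, ∀ i, ∃ᶠ j in atTop, u j = i := by
  obtain ⟨e, he⟩ := exists_surjective_nat ι
  refine ⟨fun j => e (Nat.unpair j).1, fun i => ?_⟩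
  obtain ⟨n, hn⟩ := he i
  rw [frequently_atTop]
  intro N
  refine ⟨Nat.pair n N, Nat.right_le_pair n N, ?_⟩
  simp [hn]

section Alg

variable {d : ℕ}

variable (i0 : Fin d)

/-- the square wave of half-period `2^(-(j+1))` in the coordinate `i0` -/
noncomputable def sw (j : ℕ) (x : (EuclideanSpace ℝ (Fin d))) : ℂ :=
  if Even ⌊(2 : ℝ) ^ (j + 1) * x i0⌋ then 1 else -1

lemma measurable_sw (j : ℕ) : Measurable (sw i0 j) := by
  unfold sw
  refine Measurable.ite ?_ measurable_const measurable_const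
  have h1 : Measurable (fun x : (EuclideanSpace ℝ (Fin d)) => ⌊(2 : ℝ) ^ (j + 1) * x i0⌋) := by
    apply Int.measurable_floor.comp
    fun_prop
  exact h1 (MeasurableSet.of_discrete (s := {n : ℤ | Even n}))

lemma sw_eq (j : ℕ) (x : (EuclideanSpace ℝ (Fin d))) : sw i0 j x = 1 ∨ sw i0 j x = -1 := by
  unfold sw
  split_ifs
  · left; rfl
  · right; rfl

lemma norm_sw_le (j : ℕ) (x : (EuclideanSpace ℝ (Fin d))) : ‖sw i0 j x‖ ≤ 1 := by
  rcases sw_eq i0 j x with h | h <;> rw [h] <;> simp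

lemma conj_sw (j : ℕ) (x : (EuclideanSpace ℝ (Fin d))) : (starRingEnd ℂ) (sw i0 j x) = sw i0 j x := by
  rcases sw_eq i0 j x with h | h <;> rw [h] <;> simp

lemma sw_sq (j : ℕ) (x : (EuclideanSpace ℝ (Fin d))) : sw i0 j x * sw i0 j x = 1 := by
  rcases sw_eq i0 j x with h | h <;> rw [h] <;> simp

lemma sw_add (j : ℕ) (x q : (EuclideanSpace ℝ (Fin d))) (m : ℤ) (hm : (2 : ℝ) ^ (j + 1) * q i0 = m) :
    sw i0 j (x + q) = (if Even m then 1 else -1) * sw i0 j x := by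
  unfold sw
  have h1 : (2 : ℝ) ^ (j + 1) * (x + q) i0 = (2 : ℝ) ^ (j + 1) * x i0 + (m : ℤ) := by
    rw [← hm]
    simp [mul_add]
  rw [h1, Int.floor_add_intCast]
  by_cases ha : Even ⌊(2 : ℝ) ^ (j + 1) * x i0⌋ <;> by_cases hb : Even m <;>
    simp [ha, hb, Int.even_add]

/-- multiplication by the square wave -/
noncomputable def Sop (j : ℕ) : Lp ℂ 2 (volume : Measure (EuclideanSpace ℝ (Fin d))) →L[ℂ] Lp ℂ 2 (volume : Measure (EuclideanSpace ℝ (Fin d))) :=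
  mulF volume (sw i0 j) (measurable_sw i0 j) (norm_sw_le i0 j)

/-- multiplication composed with translation -/
noncomputable def Yop (h : (EuclideanSpace ℝ (Fin d)) → ℂ) (hh : Measurable h) (hh1 : ∀ x, ‖h x‖ ≤ 1) (q : (EuclideanSpace ℝ (Fin d))) :
    Lp ℂ 2 (volume : Measure (EuclideanSpace ℝ (Fin d))) →L[ℂ] Lp ℂ 2 (volume : Measure (EuclideanSpace ℝ (Fin d))) :=
  mulF volume h hh hh1 * trans q

lemma Yop_apply (h : (EuclideanSpace ℝ (Fin d)) → ℂ) (hh : Measurable h) (hh1 : ∀ x, ‖h x‖ ≤ 1) (q : (EuclideanSpace ℝ (Fin d)))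
    (f : Lp ℂ 2 (volume : Measure (EuclideanSpace ℝ (Fin d)))) :
    Yop h hh hh1 q f =ᵐ[volume] fun x => h x * f (x + q) := by
  have h1 := mulF_apply (μ := (volume : Measure (EuclideanSpace ℝ (Fin d)))) h hh hh1 (trans q f)
  have h2 := trans_apply q f
  show mulF volume h hh hh1 (trans q f) =ᵐ[volume] _
  filter_upwards [h1, h2] with x hx1 hx2
  rw [hx1, hx2]

lemma norm_Yop_le (h : (EuclideanSpace ℝ (Fin d)) → ℂ) (hh : Measurable h) (hh1 : ∀ x, ‖h x‖ ≤ 1) (q : (EuclideanSpace ℝ (Fin d))) :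
    ‖Yop h hh hh1 q‖ ≤ 1 := by
  unfold Yop
  calc _ ≤ ‖mulF volume h hh hh1‖ * ‖(trans q : Lp ℂ 2 (volume : Measure (EuclideanSpace ℝ (Fin d))) →L[ℂ] _)‖ :=
        norm_mul_le _ _
    _ ≤ 1 * 1 := mul_le_mul (norm_mulF_le h hh hh1) (norm_trans_le q) (norm_nonneg _) zero_le_one
    _ = 1 := one_mul 1

lemma Sop_Yop (j : ℕ) (h : (EuclideanSpace ℝ (Fin d)) → ℂ) (hh : Measurable h) (hh1 : ∀ x, ‖h x‖ ≤ 1) (q : (EuclideanSpace ℝ (Fin d)))
    (m : ℤ) (hm : (2 : ℝ) ^ (j + 1) * q i0 = m) :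
    Yop h hh hh1 q * Sop i0 j = (if Even m then (1 : ℂ) else -1) • (Sop i0 j * Yop h hh hh1 q) := by
  ext1 f
  apply Lp.ext
  have h1 := Yop_apply h hh hh1 q (Sop i0 j f)
  have h2 := ae_shift q (mulF_apply (μ := (volume : Measure (EuclideanSpace ℝ (Fin d)))) (sw i0 j) (measurable_sw i0 j)
    (norm_sw_le i0 j) f)
  have h3 := mulF_apply (μ := (volume : Measure (EuclideanSpace ℝ (Fin d)))) (sw i0 j) (measurable_sw i0 j)
    (norm_sw_le i0 j) (Yop h hh hh1 q f)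
  have h4 := Yop_apply h hh hh1 q f
  have h5 := Lp.coeFn_smul (if Even m then (1 : ℂ) else -1) (Sop i0 j (Yop h hh hh1 q f))
  show (Yop h hh hh1 q (Sop i0 j f)) =ᵐ[volume]
    ((if Even m then (1 : ℂ) else -1) • (Sop i0 j (Yop h hh hh1 q f)) : Lp ℂ 2 volume)
  filter_upwards [h1, h2, h3, h4, h5] with x h1 h2 h3 h4 h5
  rw [h1, h5, Pi.smul_apply]
  have h3' : (Sop i0 j (Yop h hh hh1 q f)) x = sw i0 j x * (Yop h hh hh1 q f) x := h3
  have h2' : (Sop i0 j f) (x + q) = sw i0 j (x + q) * f (x + q) := h2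
  rw [h3', h2', h4, sw_add i0 j x q m hm, smul_eq_mul]
  ring

lemma isSelfAdjoint_Sop (j : ℕ) : IsSelfAdjoint (Sop i0 j) :=
  isSelfAdjoint_mulF _ _ _ (conj_sw i0 j)

lemma Sop_sq (j : ℕ) : Sop i0 j * Sop i0 j = 1 := by
  ext1 f
  apply Lp.ext
  have h1 := mulF_apply (μ := (volume : Measure (EuclideanSpace ℝ (Fin d)))) (sw i0 j) (measurable_sw i0 j)
    (norm_sw_le i0 j) (Sop i0 j f)
  have h2 := mulF_apply (μ := (volume : Measure (EuclideanSpace ℝ (Fin d)))) (sw i0 j) (measurable_sw i0 j)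
    (norm_sw_le i0 j) f
  show (Sop i0 j (Sop i0 j f)) =ᵐ[volume] f
  filter_upwards [h1, h2] with x h1 h2
  have h1' : (Sop i0 j (Sop i0 j f)) x = sw i0 j x * (Sop i0 j f) x := h1
  have h2' : (Sop i0 j f) x = sw i0 j x * f x := h2
  rw [h1', h2', ← mul_assoc, sw_sq, one_mul]

lemma Sop_comm (k j : ℕ) : Commute (Sop i0 j) (Sop i0 k) := by
  show Sop i0 j * Sop i0 k = Sop i0 k * Sop i0 j
  ext1 f
  apply Lp.ext
  have h1 := mulF_apply (μ := (volume : Measure (EuclideanSpace ℝ (Fin d)))) (sw i0 j) (measurable_sw i0 j)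
    (norm_sw_le i0 j) (Sop i0 k f)
  have h2 := mulF_apply (μ := (volume : Measure (EuclideanSpace ℝ (Fin d)))) (sw i0 k) (measurable_sw i0 k)
    (norm_sw_le i0 k) f
  have h3 := mulF_apply (μ := (volume : Measure (EuclideanSpace ℝ (Fin d)))) (sw i0 k) (measurable_sw i0 k)
    (norm_sw_le i0 k) (Sop i0 j f)
  have h4 := mulF_apply (μ := (volume : Measure (EuclideanSpace ℝ (Fin d)))) (sw i0 j) (measurable_sw i0 j)
    (norm_sw_le i0 j) f
  show (Sop i0 j (Sop i0 k f)) =ᵐ[volume] (Sop i0 k (Sop i0 j f))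
  filter_upwards [h1, h2, h3, h4] with x h1 h2 h3 h4
  have h1' : (Sop i0 j (Sop i0 k f)) x = sw i0 j x * (Sop i0 k f) x := h1
  have h2' : (Sop i0 k f) x = sw i0 k x * f x := h2
  have h3' : (Sop i0 k (Sop i0 j f)) x = sw i0 k x * (Sop i0 j f) x := h3
  have h4' : (Sop i0 j f) x = sw i0 j x * f x := h4
  rw [h1', h2', h3', h4']
  ring

/-- the numerator used for the `j`-th shift near `t` -/
noncomputable def numr (j : ℕ) (t : (EuclideanSpace ℝ (Fin d))) : ℤ := 2 * ⌊(2 : ℝ) ^ j * t i0⌋ + 1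

/-- the `j`-th shift near `t` -/
noncomputable def shiftq (j : ℕ) (t : (EuclideanSpace ℝ (Fin d))) : (EuclideanSpace ℝ (Fin d)) :=
  t + ((numr i0 j t : ℝ) / 2 ^ (j + 1) - t i0) • EuclideanSpace.single i0 (1 : ℝ)

lemma shiftq_coord (j : ℕ) (t : (EuclideanSpace ℝ (Fin d))) : (shiftq i0 j t) i0 = (numr i0 j t : ℝ) / 2 ^ (j + 1) := by
  unfold shiftq
  simp

lemma dist_shiftq (j : ℕ) (t : (EuclideanSpace ℝ (Fin d))) : dist (shiftq i0 j t) t ≤ (1 / 2 : ℝ) ^ j := by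
  rw [dist_eq_norm]
  have h1 : shiftq i0 j t - t =
      ((numr i0 j t : ℝ) / 2 ^ (j + 1) - t i0) • EuclideanSpace.single i0 (1 : ℝ) := by
    unfold shiftq
    abel
  rw [h1, norm_smul, PiLp.norm_single, norm_one, mul_one, Real.norm_eq_abs]
  have h2 : (numr i0 j t : ℝ) / 2 ^ (j + 1) - t i0 =
      ((⌊(2 : ℝ) ^ j * t i0⌋ : ℝ) + 1 / 2 - 2 ^ j * t i0) * (1 / 2) ^ j := by
    unfold numr
    push_cast
    rw [pow_succ, one_div, inv_pow]
    field_simp
  rw [h2, abs_mul, abs_of_nonneg (by positivity : (0 : ℝ) ≤ (1 / 2) ^ j)]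
  have h3 : |(⌊(2 : ℝ) ^ j * t i0⌋ : ℝ) + 1 / 2 - 2 ^ j * t i0| ≤ 1 := by
    have a1 := Int.floor_le ((2 : ℝ) ^ j * t i0)
    have a2 := Int.lt_floor_add_one ((2 : ℝ) ^ j * t i0)
    rw [abs_le]
    constructor <;> linarith
  calc _ ≤ 1 * (1 / 2 : ℝ) ^ j := by gcongr
    _ = _ := one_mul _

/-- the algebraic hypotheses hold for any choice of functions and targets -/
lemma hyp (h : ℕ → (EuclideanSpace ℝ (Fin d)) → ℂ) (hh : ∀ j, Measurable (h j)) (hh1 : ∀ j x, ‖h j x‖ ≤ 1) (t : ℕ → (EuclideanSpace ℝ (Fin d))) :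
    Hyp (Sop i0) (fun j => Yop (h j) (hh j) (hh1 j) (shiftq i0 j (t j))) where
  sa j := isSelfAdjoint_Sop i0 j
  sq j := Sop_sq i0 j
  bd j := norm_Yop_le _ _ _ _
  anti j := by
    have hm : (2 : ℝ) ^ (j + 1) * (shiftq i0 j (t j)) i0 = (numr i0 j (t j) : ℤ) := by
      rw [shiftq_coord]
      field_simp
    have := Sop_Yop i0 j (h j) (hh j) (hh1 j) (shiftq i0 j (t j)) _ hm
    have ho : ¬ Even (numr i0 j (t j)) := by
      rw [Int.not_even_iff_odd]
      exact ⟨_, rfl⟩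
    rw [if_neg ho, neg_smul, one_smul] at this
    show Sop i0 j * Yop (h j) (hh j) (hh1 j) (shiftq i0 j (t j)) = _
    rw [this, neg_neg]
  comm k j hkj := by
    have hm : (2 : ℝ) ^ (j + 1) * (shiftq i0 k (t k)) i0 =
        ((2 ^ (j - k) * numr i0 k (t k) : ℤ) : ℝ) := by
      rw [shiftq_coord]
      push_cast
      have : (2 : ℝ) ^ (j + 1) = 2 ^ (j - k) * 2 ^ (k + 1) := by
        rw [← pow_add]
        congr 1
        omega
      rw [this]
      field_simp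
    have := Sop_Yop i0 j (h k) (hh k) (hh1 k) (shiftq i0 k (t k)) _ hm
    have ho : Even (2 ^ (j - k) * numr i0 k (t k) : ℤ) := by
      apply Even.mul_right
      rw [Int.even_pow]
      exact ⟨even_two, by omega⟩
    rw [if_pos ho, one_smul] at this
    exact this.symm
  commS k j := Sop_comm i0 k j

end Alg

end Pool.Agent.MP_a6b860_an
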