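import Mathlib
import Pool.Agent.Lib.MP_a6b860_an.Family

set_option autoImplicit false
open MeasureTheory Filter Topology
open scoped ENNReal InnerProductSpace

namespace Pool.Agent.MP_a6b860_an

section Abs

variable {H : Type*} [NormedAddCommGroup H] [InnerProductSpace ℂ H] [CompleteSpace H]

lemma inner_form (W S Y : H →L[ℂ] H) (r : ℝ) (f : H) :
    ⟪f, (r • (star W * S * W - S) + (Y + star Y)) f⟫_ℂ =
      (r : ℂ) * (⟪W f, S (W f)⟫_ℂ - ⟪f, S f⟫_ℂ) + ((2 * (⟪f, Y f⟫_ℂ).re : ℝ) : ℂ) := by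
  have h1 : (r • (star W * S * W - S) + (Y + star Y)) f =
      (r : ℂ) • ((star W) (S (W f)) - S f) + (Y f + (star Y) f) := by
    rw [Complex.coe_smul]
    rfl
  rw [h1, inner_add_right, inner_smul_right, inner_sub_right, inner_add_right,
    ContinuousLinearMap.star_eq_adjoint, ContinuousLinearMap.star_eq_adjoint,
    ContinuousLinearMap.adjoint_inner_right, ContinuousLinearMap.adjoint_inner_right]
  congr 1
  have h2 : ⟪Y f, f⟫_ℂ = (starRingEnd ℂ) ⟪f, Y f⟫_ℂ := (inner_conj_symm _ _).symm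
  rw [h2, Complex.add_conj]

lemma key_limit {S Y : ℕ → (H →L[ℂ] H)} {W : H →L[ℂ] H} {r : ℕ → ℝ}
    (ht : Tendsto (fun j => r j • (star W * S j * W - S j) + (Y j + star (Y j))) atTop (𝓝 0))
    (f g : H) (h1 : ∀ j, ⟪f, S j f⟫_ℂ = ⟪g, S j g⟫_ℂ)
    (h2 : ∀ j, ⟪W f, S j (W f)⟫_ℂ = ⟪W g, S j (W g)⟫_ℂ) :
    Tendsto (fun j => (⟪f, Y j f⟫_ℂ).re - (⟪g, Y j g⟫_ℂ).re) atTop (𝓝 0) := by
  have hT : ∀ u : H, Tendsto (fun j => ⟪u, (r j • (star W * S j * W - S j) +
      (Y j + star (Y j))) u⟫_ℂ) atTop (𝓝 0) := by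
    intro u
    have hc : Continuous (fun T : H →L[ℂ] H => ⟪u, T u⟫_ℂ) :=
      continuous_const.inner (by fun_prop)
    have := (hc.tendsto 0).comp ht
    simp only [zero_apply, inner_zero_right] at this
    exact this
  have h3 := (hT f).sub (hT g)
  have h4 : ∀ j, ⟪f, (r j • (star W * S j * W - S j) + (Y j + star (Y j))) f⟫_ℂ -
      ⟪g, (r j • (star W * S j * W - S j) + (Y j + star (Y j))) g⟫_ℂ =
      ((2 * ((⟪f, Y j f⟫_ℂ).re - (⟪g, Y j g⟫_ℂ).re) : ℝ) : ℂ) := by
    intro j
    rw [inner_form, inner_form, h1 j, h2 j]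
    push_cast
    ring
  simp only [h4] at h3
  have h5 := (Complex.continuous_re.tendsto _).comp h3
  simp only [Function.comp_def, Complex.ofReal_re, sub_zero, Complex.zero_re] at h5
  have h6 := h5.const_mul (1 / 2 : ℝ)
  simp only [mul_zero] at h6
  refine h6.congr (fun j => ?_)
  ring

end Abs

section Final

variable {d : ℕ}

/-- a countable pi-system -/
def piSet (d : ℕ) (F : Finset ℕ) : Set (EuclideanSpace ℝ (Fin d)) :=
  ⋂ n ∈ F, MeasurableSpace.natGeneratingSequence (EuclideanSpace ℝ (Fin d)) n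

lemma measurableSet_piSet (F : Finset ℕ) : MeasurableSet (piSet d F) :=
  Finset.measurableSet_biInter _ (fun n _ => MeasurableSpace.measurableSet_natGeneratingSequence n)

/-- the test functions -/
noncomputable def hfun (F : Finset ℕ) (b : Bool) : (EuclideanSpace ℝ (Fin d)) → ℂ :=
  (piSet d F).indicator (fun _ => if b then 1 else Complex.I)

lemma measurable_hfun (F : Finset ℕ) (b : Bool) : Measurable (hfun (d := d) F b) :=
  measurable_const.indicator (measurableSet_piSet F)

lemma norm_hfun_le (F : Finset ℕ) (b : Bool) (x : (EuclideanSpace ℝ (Fin d))) : ‖hfun F b x‖ ≤ 1 := by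
  unfold hfun
  refine (norm_indicator_le_norm_self _ _).trans ?_
  cases b <;> simp

/-- test sets suffice -/
lemma setIntegral_zero {φ : (EuclideanSpace ℝ (Fin d)) → ℂ} (hφ : Integrable φ volume)
    (h : ∀ F : Finset ℕ, ∫ x in piSet d F, φ x = 0) : φ =ᵐ[volume] 0 := by
  apply hφ.ae_eq_zero_of_forall_setIntegral_eq_zero
  have huniv : ∫ x, φ x = 0 := by
    have := h ∅
    simpa [piSet] using this
  have key : ∀ s : Set (EuclideanSpace ℝ (Fin d)), MeasurableSet s → ∫ x in s, φ x = 0 := by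
    intro s hs
    have hgen : (inferInstance : MeasurableSpace (EuclideanSpace ℝ (Fin d))) =
        MeasurableSpace.generateFrom (Set.range (piSet d)) := by
      apply le_antisymm
      · have h1 := MeasurableSpace.generateFrom_natGeneratingSequence (EuclideanSpace ℝ (Fin d))
        conv_lhs => rw [← h1]
        apply MeasurableSpace.generateFrom_mono
        rintro _ ⟨n, rfl⟩
        refine ⟨{n}, ?_⟩
        simp [piSet]
      · apply MeasurableSpace.generateFrom_le
        rintro _ ⟨F, rfl⟩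
        exact measurableSet_piSet F
    have hpi : IsPiSystem (Set.range (piSet d)) := by
      rintro _ ⟨F, rfl⟩ _ ⟨G, rfl⟩ _
      refine ⟨F ∪ G, ?_⟩
      unfold piSet
      ext x
      simp only [Set.mem_iInter, Finset.mem_union, Set.mem_inter_iff]
      constructor
      · intro hx
        exact ⟨fun n hn => hx n (Or.inl hn), fun n hn => hx n (Or.inr hn)⟩
      · rintro ⟨ha, hb⟩ n (hn | hn)
        · exact ha n hn
        · exact hb n hn
    induction s, hs using MeasurableSpace.induction_on_inter hgen hpi with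
    | empty => simp
    | basic t ht =>
      obtain ⟨F, rfl⟩ := ht
      exact h F
    | compl t htm iht =>
      have := integral_add_compl htm hφ
      rw [iht, huniv, zero_add] at this
      exact this
    | iUnion f hd hm ihf =>
      rw [integral_iUnion hm hd hφ.integrableOn]
      simp [ihf]
  intro s hs _
  exact key s hs

lemma inner_Yop (h : (EuclideanSpace ℝ (Fin d)) → ℂ) (hh : Measurable h) (hh1 : ∀ x, ‖h x‖ ≤ 1) (q : (EuclideanSpace ℝ (Fin d)))
    (f : Lp ℂ 2 (volume : Measure (EuclideanSpace ℝ (Fin d)))) :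
    ⟪f, Yop h hh hh1 q f⟫_ℂ = ∫ x, h x * (f (x + q) * (starRingEnd ℂ) (f x)) := by
  rw [L2.inner_def]
  apply integral_congr_ae
  filter_upwards [Yop_apply h hh hh1 q f] with x hx
  rw [hx, RCLike.inner_apply]
  ring

lemma integrable_prod (q : (EuclideanSpace ℝ (Fin d))) (f : Lp ℂ 2 (volume : Measure (EuclideanSpace ℝ (Fin d)))) :
    Integrable (fun x => f (x + q) * (starRingEnd ℂ) (f x)) volume := by
  have h1 : Integrable (fun x => ⟪f x, (trans q f) x⟫_ℂ) volume := L2.integrable_inner _ _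
  refine h1.congr ?_
  filter_upwards [trans_apply q f] with x hx
  rw [hx, RCLike.inner_apply]

lemma inner_hfun (F : Finset ℕ) (b : Bool) (q : (EuclideanSpace ℝ (Fin d))) (f : Lp ℂ 2 (volume : Measure (EuclideanSpace ℝ (Fin d)))) :
    ⟪f, Yop (hfun F b) (measurable_hfun F b) (norm_hfun_le F b) q f⟫_ℂ =
      (if b then 1 else Complex.I) *
        ∫ x in piSet d F, (f (x + q) * (starRingEnd ℂ) (f x)) := by
  rw [inner_Yop, ← integral_const_mul, ← integral_indicator (measurableSet_piSet F)]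
  congr 1
  funext x
  unfold hfun
  by_cases hx : x ∈ piSet d F <;> simp [hx]

lemma continuous_inner_Yop (h : (EuclideanSpace ℝ (Fin d)) → ℂ) (hh : Measurable h) (hh1 : ∀ x, ‖h x‖ ≤ 1)
    (f : Lp ℂ 2 (volume : Measure (EuclideanSpace ℝ (Fin d)))) :
    Continuous (fun q : (EuclideanSpace ℝ (Fin d)) => (⟪f, Yop h hh hh1 q f⟫_ℂ).re) := by
  apply Complex.continuous_re.comp
  apply continuous_const.inner
  show Continuous (fun q => mulF volume h hh hh1 (trans q f))
  exact (mulF volume h hh hh1).continuous.comp (continuous_trans f)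

/-- equality of all the translated products forces equality up to a phase -/
lemma phase_of_products (f g : Lp ℂ 2 (volume : Measure (EuclideanSpace ℝ (Fin d))))
    (hfg : ∀ᵐ x ∂(volume : Measure (EuclideanSpace ℝ (Fin d))), ‖f x‖ = ‖g x‖)
    (h : ∀ q : (EuclideanSpace ℝ (Fin d)), ∀ᵐ x ∂(volume : Measure (EuclideanSpace ℝ (Fin d))),
      f (x + q) * (starRingEnd ℂ) (f x) = g (x + q) * (starRingEnd ℂ) (g x)) :
    ∃ c : ℂ, ‖c‖ = 1 ∧ f = c • g := by
  by_cases hf0 : f = 0
  · refine ⟨1, by simp, ?_⟩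
    rw [one_smul, hf0]
    symm
    apply Lp.ext
    filter_upwards [hfg, Lp.coeFn_zero ℂ 2 (volume : Measure (EuclideanSpace ℝ (Fin d)))] with x hx h0
    rw [hf0, h0, Pi.zero_apply, norm_zero] at hx
    rw [h0, Pi.zero_apply]
    exact norm_eq_zero.1 hx.symm
  · -- swap the quantifiers
    have hmeas : MeasurableSet {p : (EuclideanSpace ℝ (Fin d)) × (EuclideanSpace ℝ (Fin d)) | f (p.2 + p.1) * (starRingEnd ℂ) (f p.2) =
        g (p.2 + p.1) * (starRingEnd ℂ) (g p.2)} := by
      have hf := (Lp.stronglyMeasurable f).measurable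
      have hg := (Lp.stronglyMeasurable g).measurable
      apply measurableSet_eq_fun
      · exact (hf.comp (measurable_snd.add measurable_fst)).mul
          (Complex.continuous_conj.measurable.comp (hf.comp measurable_snd))
      · exact (hg.comp (measurable_snd.add measurable_fst)).mul
          (Complex.continuous_conj.measurable.comp (hg.comp measurable_snd))
    have h1 : ∀ᵐ x ∂(volume : Measure (EuclideanSpace ℝ (Fin d))), ∀ᵐ q ∂(volume : Measure (EuclideanSpace ℝ (Fin d))),
        f (x + q) * (starRingEnd ℂ) (f x) = g (x + q) * (starRingEnd ℂ) (g x) :=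
      (Measure.ae_ae_comm (μ := (volume : Measure (EuclideanSpace ℝ (Fin d)))) (ν := (volume : Measure (EuclideanSpace ℝ (Fin d))))
        (p := fun q x => f (x + q) * (starRingEnd ℂ) (f x) =
          g (x + q) * (starRingEnd ℂ) (g x)) hmeas).1 (Eventually.of_forall h)
    have h2 : ∃ᶠ x in ae (volume : Measure (EuclideanSpace ℝ (Fin d))), f x ≠ 0 := by
      intro hcon
      apply hf0
      apply Lp.ext
      filter_upwards [hcon, Lp.coeFn_zero ℂ 2 (volume : Measure (EuclideanSpace ℝ (Fin d)))] with x hx h0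
      rw [h0, Pi.zero_apply]
      exact not_not.1 hx
    obtain ⟨x0, hx0, hx1, hx2⟩ := (h2.and_eventually (h1.and hfg)).exists
    have hc0 : (starRingEnd ℂ) (f x0) ≠ 0 := by
      intro hh
      apply hx0
      have := congrArg (starRingEnd ℂ) hh
      simpa using this
    refine ⟨(starRingEnd ℂ) (g x0) / (starRingEnd ℂ) (f x0), ?_, ?_⟩
    · rw [norm_div, RCLike.norm_conj, RCLike.norm_conj, ← hx2]
      exact div_self (norm_ne_zero_iff.2 hx0)
    · apply Lp.ext
      have h3 := ae_shift (-x0) hx1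
      filter_upwards [h3, Lp.coeFn_smul ((starRingEnd ℂ) (g x0) / (starRingEnd ℂ) (f x0)) g]
        with y hy hs
      rw [hs, Pi.smul_apply, smul_eq_mul]
      have e : x0 + (y + -x0) = y := by abel
      rw [e] at hy
      field_simp
      linear_combination hy

/-- a continuous family which tends to zero along the enumeration vanishes identically -/
lemma zero_of_limit {ι : Type*} (i0 : Fin d) (Φ : ι → (EuclideanSpace ℝ (Fin d)) → ℝ) (hc : ∀ i, Continuous (Φ i))
    (u : ℕ → ι × ℕ) (hu : ∀ i, ∃ᶠ j in atTop, u j = i)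
    (hlim : Tendsto (fun j => Φ (u j).1 (shiftq i0 j (TopologicalSpace.denseSeq (EuclideanSpace ℝ (Fin d)) (u j).2)))
      atTop (𝓝 0)) (i : ι) (q : (EuclideanSpace ℝ (Fin d))) : Φ i q = 0 := by
  by_contra hne
  have hpos : 0 < |Φ i q| := abs_pos.2 hne
  have hnear : ∀ᶠ y in 𝓝 q, |Φ i q| / 2 < |Φ i y| := by
    have hc2 : Continuous (fun y => |Φ i y|) := (hc i).abs
    exact (hc2.tendsto q).eventually (lt_mem_nhds (by linarith))
  obtain ⟨δ, hδ, hball⟩ := Metric.eventually_nhds_iff.1 hnear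
  obtain ⟨m, hm⟩ : ∃ m, dist (TopologicalSpace.denseSeq (EuclideanSpace ℝ (Fin d)) m) q < δ / 2 := by
    have := (TopologicalSpace.denseRange_denseSeq (EuclideanSpace ℝ (Fin d))).exists_dist_lt q (half_pos hδ)
    obtain ⟨m, hm⟩ := this
    exact ⟨m, by rwa [dist_comm] at hm⟩
  have hev1 : ∀ᶠ j : ℕ in atTop, (1 / 2 : ℝ) ^ j < δ / 2 :=
    (tendsto_pow_atTop_nhds_zero_of_lt_one (by norm_num) (by norm_num)).eventually
      (gt_mem_nhds (half_pos hδ))
  have hev2 : ∀ᶠ j in atTop,
      |Φ (u j).1 (shiftq i0 j (TopologicalSpace.denseSeq (EuclideanSpace ℝ (Fin d)) (u j).2))| < |Φ i q| / 2 := by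
    have := hlim.abs
    rw [abs_zero] at this
    exact this.eventually (gt_mem_nhds (by linarith))
  obtain ⟨j, hj, hj1, hj2⟩ := ((hu (i, m)).and_eventually (hev1.and hev2)).exists
  rw [hj] at hj2
  have hd : dist (shiftq i0 j (TopologicalSpace.denseSeq (EuclideanSpace ℝ (Fin d)) m)) q < δ := by
    calc _ ≤ dist (shiftq i0 j (TopologicalSpace.denseSeq (EuclideanSpace ℝ (Fin d)) m))
            (TopologicalSpace.denseSeq (EuclideanSpace ℝ (Fin d)) m) + dist (TopologicalSpace.denseSeq (EuclideanSpace ℝ (Fin d)) m) q :=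
          dist_triangle _ _ _
      _ < δ / 2 + δ / 2 :=
          add_lt_add (lt_of_le_of_lt (dist_shiftq i0 j _) hj1) hm
      _ = δ := by ring
  have hΦj := hball hd
  exact absurd hj2 (not_lt.2 hΦj.le)

/-- the difference of the two forms -/
noncomputable def Phi (f g : Lp ℂ 2 (volume : Measure (EuclideanSpace ℝ (Fin d)))) (i : Finset ℕ × Bool) (q : (EuclideanSpace ℝ (Fin d))) : ℝ :=
  (⟪f, Yop (hfun i.1 i.2) (measurable_hfun i.1 i.2) (norm_hfun_le i.1 i.2) q f⟫_ℂ).re -
  (⟪g, Yop (hfun i.1 i.2) (measurable_hfun i.1 i.2) (norm_hfun_le i.1 i.2) q g⟫_ℂ).re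

lemma continuous_Phi (f g : Lp ℂ 2 (volume : Measure (EuclideanSpace ℝ (Fin d)))) (i : Finset ℕ × Bool) :
    Continuous (Phi f g i) :=
  (continuous_inner_Yop _ _ _ f).sub (continuous_inner_Yop _ _ _ g)

lemma products_of_Phi (f g : Lp ℂ 2 (volume : Measure (EuclideanSpace ℝ (Fin d)))) (q : (EuclideanSpace ℝ (Fin d)))
    (h : ∀ i, Phi f g i q = 0) :
    ∀ᵐ x ∂(volume : Measure (EuclideanSpace ℝ (Fin d))),
      f (x + q) * (starRingEnd ℂ) (f x) = g (x + q) * (starRingEnd ℂ) (g x) := by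
  have hint := (integrable_prod q f).sub (integrable_prod q g)
  have hzero := setIntegral_zero hint (fun F' => by
    have e1 := sub_eq_zero.1 (h (F', true))
    have e2 := sub_eq_zero.1 (h (F', false))
    rw [inner_hfun, inner_hfun] at e1 e2
    simp only [if_true, one_mul] at e1
    simp only [Bool.false_eq_true, if_false, Complex.mul_re, Complex.I_re, Complex.I_im, zero_mul,
      one_mul, zero_sub] at e2
    have e3 : ∫ x in piSet d F', (f (x + q) * (starRingEnd ℂ) (f x)) =
        ∫ x in piSet d F', (g (x + q) * (starRingEnd ℂ) (g x)) :=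
      Complex.ext e1 (neg_injective e2)
    have e4 := integral_sub (integrable_prod q f).integrableOn (integrable_prod q g).integrableOn
      (μ := volume.restrict (piSet d F'))
    rw [e3, sub_self] at e4
    exact e4)
  filter_upwards [hzero] with x hx
  have hx' : f (x + q) * (starRingEnd ℂ) (f x) - g (x + q) * (starRingEnd ℂ) (g x) = 0 := hx
  exact sub_eq_zero.1 hx'

/-- Two moduli suffice. -/
theorem two_moduli (i0 : Fin d) :
    ∃ U : Lp ℂ 2 (volume : Measure (EuclideanSpace ℝ (Fin d))) ≃ₗᵢ[ℂ] Lp ℂ 2 (volume : Measure (EuclideanSpace ℝ (Fin d))),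
      ∀ f g : Lp ℂ 2 (volume : Measure (EuclideanSpace ℝ (Fin d))),
        (∀ᵐ x ∂(volume : Measure (EuclideanSpace ℝ (Fin d))), ‖f x‖ = ‖g x‖) →
        (∀ᵐ x ∂(volume : Measure (EuclideanSpace ℝ (Fin d))), ‖(U f) x‖ = ‖(U g) x‖) →
        ∃ c : ℂ, ‖c‖ = 1 ∧ f = c • g := by
  obtain ⟨u, hu⟩ := exists_frequent ((Finset ℕ × Bool) × ℕ)
  have hH := hyp i0 (fun j => hfun (u j).1.1 (u j).1.2)
    (fun j => measurable_hfun (u j).1.1 (u j).1.2)
    (fun j => norm_hfun_le (u j).1.1 (u j).1.2) (fun j => TopologicalSpace.denseSeq (EuclideanSpace ℝ (Fin d)) (u j).2)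
  obtain ⟨W, hW, r, ht⟩ := hH.exists_unitary
  refine ⟨Unitary.linearIsometryEquiv ⟨W, hW⟩, ?_⟩
  intro f g hfg hUfg
  have hUfg' : ∀ᵐ x ∂(volume : Measure (EuclideanSpace ℝ (Fin d))), ‖(W f) x‖ = ‖(W g) x‖ := hUfg
  have hlim := key_limit ht f g (fun j => inner_mulF_congr _ _ _ f g hfg)
    (fun j => inner_mulF_congr _ _ _ (W f) (W g) hUfg')
  exact phase_of_products f g hfg (fun q => products_of_Phi f g q
    (fun i => zero_of_limit i0 (Phi f g) (continuous_Phi f g) u hu hlim i q))

end Final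

end Pool.Agent.MP_a6b860_an
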